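import Pool.Agent.W92.Step

set_option autoImplicit false

/-! # The absolute Galois group of a field without new squares is not finitely generated -/

namespace Pool.Agent.W92

/-- `K` as a subfield of `ℂ` has char zero and `√p ∉ K`: no finite set generates `G_K`. -/
theorem not_fg (K : Subfield ℂ) (hK : NoNewSquares K)
    (S : Finset (SeparableClosure K ≃ₐ[K] SeparableClosure K)) :
    (Subgroup.closure (S : Set (SeparableClosure K ≃ₐ[K] SeparableClosure K))).topologicalClosure
      ≠ ⊤ := by
  classical
  intro htop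
  obtain ⟨N, hN⟩ : ∃ N, N = S.card + 1 := ⟨_, rfl⟩
  -- distinct primes and their square roots
  have hr : ∀ i : Fin N, ∃ r : SeparableClosure K, r * r = (Nat.nth Nat.Prime i : ℕ) := by
    intro i
    obtain ⟨z, hz⟩ := IsSepClosed.exists_eq_mul_self (Nat.nth Nat.Prime i : SeparableClosure K)
    exact ⟨z, hz.symm⟩
  choose r hr using hr
  have hp : ∀ i : Fin N, (Nat.nth Nat.Prime i).Prime := fun i => Nat.prime_nth_prime _
  have hr0 : ∀ i, r i ≠ 0 := by
    intro i h
    have := hr i
    rw [h, mul_zero] at this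
    have h2 : (Nat.nth Nat.Prime i) = 0 := by exact_mod_cast this.symm
    exact (hp i).ne_zero h2
  -- signs
  have hsign : ∀ (g : SeparableClosure K ≃ₐ[K] SeparableClosure K) (i : Fin N),
      g (r i) = r i ∨ g (r i) = - r i := by
    intro g i
    have h1 : g (r i) * g (r i) = r i * r i := by
      rw [← map_mul, hr i, map_natCast]
    exact mul_self_eq_mul_self_iff.1 h1
  let ε : Finset (Fin N) → (S → Bool) := fun A g =>
    decide (g.1 (∏ i ∈ A, r i) = ∏ i ∈ A, r i)
  have hsignA : ∀ (g : SeparableClosure K ≃ₐ[K] SeparableClosure K) (A : Finset (Fin N)),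
      g (∏ i ∈ A, r i) = ∏ i ∈ A, r i ∨ g (∏ i ∈ A, r i) = - ∏ i ∈ A, r i := by
    intro g A
    induction A using Finset.induction_on with
    | empty => left; simp
    | insert a A ha ih =>
      rw [Finset.prod_insert ha, map_mul]
      rcases hsign g a with h | h <;> rcases ih with h' | h' <;> rw [h, h'] <;> simp
  obtain ⟨A, B, hAB, hεAB⟩ : ∃ A B : Finset (Fin N), A ≠ B ∧ ε A = ε B := by
    have hcard : Fintype.card (S → Bool) < Fintype.card (Finset (Fin N)) := by
      rw [Fintype.card_finset, Fintype.card_fin, Fintype.card_fun, Fintype.card_bool,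
        Fintype.card_coe, hN]
      exact Nat.pow_lt_pow_right (by norm_num) (Nat.lt_succ_self _)
    obtain ⟨A, B, h1, h2⟩ := Fintype.exists_ne_map_eq_of_card_lt ε hcard
    exact ⟨A, B, h1, h2⟩
  obtain ⟨z, hz⟩ : ∃ z, z = (∏ i ∈ A, r i) * (∏ i ∈ B, r i) := ⟨_, rfl⟩
  have hfix : ∀ g ∈ S, g z = z := by
    intro g hg
    have h1 := congrFun hεAB ⟨g, hg⟩
    simp only [ε, decide_eq_decide] at h1
    have hA0 : (∏ i ∈ A, r i) ≠ 0 := Finset.prod_ne_zero_iff.2 fun i _ => hr0 i
    have hB0 : (∏ i ∈ B, r i) ≠ 0 := Finset.prod_ne_zero_iff.2 fun i _ => hr0 i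
    rw [hz, map_mul]
    rcases hsignA g A with h2 | h2
    · rw [h2, h1.1 h2]
    · have h3 : g (∏ i ∈ B, r i) = - ∏ i ∈ B, r i := by
        rcases hsignA g B with h3 | h3
        · exfalso
          have h4 := h1.2 h3
          rw [h2] at h4
          exact hA0 (self_eq_neg.1 h4.symm)
        · exact h3
      rw [h2, h3, neg_mul_neg]
  -- so all of the Galois group fixes `z`
  have hall : ∀ g : SeparableClosure K ≃ₐ[K] SeparableClosure K, g z = z := by
    intro g
    have h1 : (Subgroup.closure (S : Set (SeparableClosure K ≃ₐ[K] SeparableClosure K))) ≤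
        (IntermediateField.adjoin K {z}).fixingSubgroup := by
      rw [Subgroup.closure_le]
      intro h hh
      rw [SetLike.mem_coe, IntermediateField.mem_fixingSubgroup_iff]
      intro x hx
      have h2 : IntermediateField.adjoin K {z} ≤
          IntermediateField.fixedField (Subgroup.zpowers h) := by
        rw [IntermediateField.adjoin_simple_le_iff, IntermediateField.mem_fixedField_iff]
        intro f hf
        have : Subgroup.zpowers h ≤ MulAction.stabilizer
            (SeparableClosure K ≃ₐ[K] SeparableClosure K) z := by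
          rw [Subgroup.zpowers_le]
          exact hfix h hh
        exact this hf
      exact (IntermediateField.mem_fixedField_iff _ _).1 (h2 hx) h (Subgroup.mem_zpowers h)
    have h2 := Subgroup.topologicalClosure_minimal _ h1
      (InfiniteGalois.fixingSubgroup_isClosed (IntermediateField.adjoin K {z}))
    rw [htop] at h2
    exact (IntermediateField.mem_fixingSubgroup_iff _ _).1 (h2 (Subgroup.mem_top g)) z
      (IntermediateField.mem_adjoin_simple_self K z)
  obtain ⟨w, hw⟩ := (InfiniteGalois.mem_range_algebraMap_iff_fixed (k := K) z).2 hall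
  -- `w ^ 2` is rational
  obtain ⟨a, ha⟩ : ∃ a : ℕ, a = (∏ i ∈ A, Nat.nth Nat.Prime i) * (∏ i ∈ B, Nat.nth Nat.Prime i) :=
    ⟨_, rfl⟩
  have hz2 : z * z = (a : SeparableClosure K) := by
    rw [hz, mul_mul_mul_comm, ← Finset.prod_mul_distrib, ← Finset.prod_mul_distrib, ha]
    push_cast
    rw [Finset.prod_congr rfl fun i _ => hr i, Finset.prod_congr rfl fun i _ => hr i]
  have hw2 : w * w = (a : K) := by
    apply (algebraMap K (SeparableClosure K)).injective
    rw [map_mul, hw, hz2, map_natCast]
  have hsq : IsSquare (a : ℚ) := by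
    apply hK
    refine ⟨(w : ℂ), w.2, ?_⟩
    have := congrArg (fun x : K => (x : ℂ)) hw2
    push_cast at this
    rw [sq, this]
    simp
  have hsq' : IsSquare a := by
    rwa [Rat.isSquare_natCast_iff] at hsq
  -- contradiction
  have hinj : ∀ i j : Fin N, Nat.nth Nat.Prime i = Nat.nth Nat.Prime j → i = j := by
    intro i j hij
    exact Fin.ext (Nat.nth_injective Nat.infinite_setOf_prime hij)
  have hfac : ∀ (C : Finset (Fin N)) (j : Fin N),
      (∏ i ∈ C, Nat.nth Nat.Prime i).factorization (Nat.nth Nat.Prime j) =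
        if j ∈ C then 1 else 0 := by
    intro C j
    rw [Nat.factorization_prod fun i _ => (hp i).ne_zero, Finset.sum_apply']
    rw [← Finset.sum_ite_eq' C j (fun _ => 1)]
    refine Finset.sum_congr rfl fun i _ => ?_
    rw [(hp i).factorization, Finsupp.single_apply]
    congr 1
    exact propext ⟨fun h => hinj _ _ h, fun h => by rw [h]⟩
  obtain ⟨b, hb⟩ := hsq'
  obtain ⟨j, hj⟩ : ∃ j, ¬ (j ∈ A ↔ j ∈ B) := by
    by_contra hcon
    push Not at hcon
    exact hAB (Finset.ext hcon)
  have h1 := congrArg (fun x => x.factorization (Nat.nth Nat.Prime j)) (ha.symm.trans hb)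
  have hne : ∀ C : Finset (Fin N), (∏ i ∈ C, Nat.nth Nat.Prime i) ≠ 0 := fun C =>
    Finset.prod_ne_zero_iff.2 fun i _ => (hp i).ne_zero
  have hb0 : b ≠ 0 := by
    rintro rfl
    rw [mul_zero] at hb
    rw [hb] at ha
    exact mul_ne_zero (hne A) (hne B) ha.symm
  simp only [Nat.factorization_mul (hne A) (hne B), Nat.factorization_mul hb0 hb0,
    Finsupp.add_apply, hfac] at h1
  by_cases hjA : j ∈ A <;> by_cases hjB : j ∈ B <;> simp [hjA, hjB] at hj h1
  · omega
  · omega

end Pool.Agent.W92
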