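import Pool.Agent.W92.Pac

set_option autoImplicit false

/-! # From zeros of absolutely prime ideals to points of geometrically integral schemes -/

namespace Pool.Agent.W92

open MvPolynomial TensorProduct AlgebraicGeometry CategoryTheory Limits

/-- every finite set of polynomials over `K` that generates a prime ideal over `ℂ` has a zero -/
def HasZeros (K : Subfield ℂ) : Prop :=
  ∀ (n : ℕ) (T : Finset (MvPolynomial (Fin n) K)),
    (Ideal.map (MvPolynomial.map (algebraMap K ℂ))
      (Ideal.span (T : Set (MvPolynomial (Fin n) K)))).IsPrime →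
    ∃ x : Fin n → K, ∀ p ∈ T, MvPolynomial.aeval x p = 0

theorem pac_algebra (K : Subfield ℂ) (hK : HasZeros K) (A : Type) [CommRing A] [Algebra K A]
    [Algebra.FiniteType K A] [IsDomain (ℂ ⊗[K] A)] : Nonempty (A →ₐ[K] K) := by
  obtain ⟨n, f, hf⟩ := Algebra.FiniteType.iff_quotient_mvPolynomial''.1
    (inferInstance : Algebra.FiniteType K A)
  obtain ⟨T, hT⟩ := (inferInstance : IsNoetherianRing (MvPolynomial (Fin n) K)).noetherian
    (RingHom.ker f)
  have hT' : Ideal.span (T : Set (MvPolynomial (Fin n) K)) = RingHom.ker f := hT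
  have hker := Algebra.TensorProduct.lTensor_ker (A := ℂ) f hf
  have hprime : (RingHom.ker (Algebra.TensorProduct.map (AlgHom.id K ℂ) f)).IsPrime :=
    RingHom.ker_isPrime _
  have h1 : (Ideal.map (MvPolynomial.map (algebraMap K ℂ)) (RingHom.ker f)).IsPrime := by
    have h2 : Ideal.map (MvPolynomial.map (algebraMap K ℂ)) (RingHom.ker f) =
      Ideal.map (MvPolynomial.algebraTensorAlgEquiv (σ := Fin n) K ℂ)
        (RingHom.ker (Algebra.TensorProduct.map (AlgHom.id K ℂ) f)) := by
      rw [hker]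
      change _ = Ideal.map ((MvPolynomial.algebraTensorAlgEquiv (σ := Fin n) K ℂ).toRingEquiv :
        ℂ ⊗[K] MvPolynomial (Fin n) K →+* MvPolynomial (Fin n) ℂ) (Ideal.map
        (Algebra.TensorProduct.includeRight :
          MvPolynomial (Fin n) K →ₐ[K] ℂ ⊗[K] MvPolynomial (Fin n) K).toRingHom (RingHom.ker f))
      rw [Ideal.map_map]
      congr 1
      apply RingHom.ext
      intro p
      change _ = MvPolynomial.algebraTensorAlgEquiv (σ := Fin n) K ℂ (1 ⊗ₜ p)
      rw [MvPolynomial.algebraTensorAlgEquiv_tmul, one_smul]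
    rw [h2]
    exact Ideal.map_isPrime_of_equiv (MvPolynomial.algebraTensorAlgEquiv (σ := Fin n) K ℂ)
  obtain ⟨x, hx⟩ := hK n T (by rw [hT']; exact h1)
  have h3 : ∀ p ∈ RingHom.ker f, MvPolynomial.aeval x p = 0 := by
    intro p hp
    rw [← hT'] at hp
    have : Ideal.span (T : Set (MvPolynomial (Fin n) K)) ≤ RingHom.ker (MvPolynomial.aeval x :
        MvPolynomial (Fin n) K →ₐ[K] K) := by
      rw [Ideal.span_le]
      intro q hq
      exact hx q hq
    exact this hp
  exact ⟨(Ideal.Quotient.liftₐ (RingHom.ker f) (MvPolynomial.aeval x) h3).comp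
    (Ideal.quotientKerAlgEquivOfSurjective hf).symm.toAlgHom⟩

theorem pac_scheme (K : Subfield ℂ) (hK : HasZeros K) (X : Scheme.{0})
    (f : X ⟶ Spec (CommRingCat.of K)) [GeometricallyIntegral f] [LocallyOfFiniteType f] :
    ∃ s : Spec (CommRingCat.of K) ⟶ X, s ≫ f = 𝟙 _ := by
  have hX : IsIntegral X := GeometricallyIntegral.isIntegral_of_subsingleton f
  obtain ⟨x⟩ : Nonempty X := inferInstance
  obtain ⟨R, g, hg, hne⟩ : ∃ (R : CommRingCat.{0}) (g : Spec R ⟶ X), IsOpenImmersion g ∧
      Nonempty (Spec R) := by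
    obtain ⟨R, g, hg, y, hy⟩ := X.exists_Spec_apply_eq x
    exact ⟨R, g, hg, ⟨y⟩⟩
  obtain ⟨φ, hφ⟩ : ∃ φ : CommRingCat.of K ⟶ R, Spec.map φ = g ≫ f := ⟨Spec.preimage (g ≫ f),
    Spec.map_preimage _⟩
  have hft : LocallyOfFiniteType (Spec.map φ) := by rw [hφ]; infer_instance
  have hft' : φ.hom.FiniteType := HasRingHomProperty.Spec_iff.mp hft
  let : Algebra K R := φ.hom.toAlgebra
  have : Algebra.FiniteType K R := hft'
  have hnt : Nontrivial R := by
    rw [← PrimeSpectrum.nonempty_iff_nontrivial]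
    exact hne
  have hdom : IsDomain (ℂ ⊗[K] R) := by
    have h1 : IsIntegral (pullback f (Spec.map (CommRingCat.ofHom (algebraMap K ℂ)))) :=
      GeometricallyIntegral.geometrically_isIntegral _ _ _ (.of_hasPullback _ _)
    have h2 : Nontrivial (ℂ ⊗[K] R) := inferInstance
    have h3 : Nonempty (Spec (CommRingCat.of (ℂ ⊗[K] R))) := by
      change Nonempty (PrimeSpectrum _)
      infer_instance
    let e : Spec (CommRingCat.of (ℂ ⊗[K] R)) ≅ pullback
        (Spec.map (CommRingCat.ofHom (algebraMap K ℂ))) (Spec.map (CommRingCat.ofHom (algebraMap K R))) :=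
      (pullbackSpecIso K ℂ R).symm
    have hφ' : Spec.map (CommRingCat.ofHom (algebraMap K R)) = g ≫ f := hφ
    let e2 : pullback (Spec.map (CommRingCat.ofHom (algebraMap K ℂ))) (Spec.map (CommRingCat.ofHom (algebraMap K R))) ≅
        pullback (g ≫ f) (Spec.map (CommRingCat.ofHom (algebraMap K ℂ))) :=
      pullbackSymmetry _ _ ≪≫ pullback.congrHom hφ' rfl
    let e3 : pullback (g ≫ f) (Spec.map (CommRingCat.ofHom (algebraMap K ℂ))) ≅
        pullback g (pullback.fst f (Spec.map (CommRingCat.ofHom (algebraMap K ℂ)))) :=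
      (pullbackRightPullbackFstIso f (Spec.map (CommRingCat.ofHom (algebraMap K ℂ))) g).symm
    let j : Spec (CommRingCat.of (ℂ ⊗[K] R)) ⟶ pullback f (Spec.map (CommRingCat.ofHom (algebraMap K ℂ))) :=
      (e ≪≫ e2 ≪≫ e3).hom ≫ pullback.snd _ _
    have : IsOpenImmersion j := inferInstance
    have h4 : IsIntegral (Spec (CommRingCat.of (ℂ ⊗[K] R))) := isIntegral_of_isOpenImmersion j
    exact (affine_isIntegral_iff _).mp h4
  obtain ⟨σ⟩ := pac_algebra K hK R
  refine ⟨Spec.map (CommRingCat.ofHom σ.toRingHom) ≫ g, ?_⟩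
  rw [Category.assoc, ← hφ, ← Spec.map_comp]
  have : φ ≫ CommRingCat.ofHom σ.toRingHom = 𝟙 _ := by
    ext k
    exact congrArg _ (σ.commutes k)
  rw [this, Spec.map_id]

end Pool.Agent.W92
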