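import Mathlib

set_option autoImplicit false

/-! # Embedding a countable extension of a countable subfield of `ℂ` into `ℂ` -/

namespace Pool.Agent.W92

open Cardinal MvPolynomial

theorem exists_emb (K : Subfield ℂ) [Countable K] (F : Type) [Field F] [Algebra K F]
    [Countable F] : Nonempty (F →ₐ[K] ℂ) := by
  obtain ⟨ι, x, hx⟩ := exists_isTranscendenceBasis' K F
  obtain ⟨κ, y, hy⟩ := exists_isTranscendenceBasis' K ℂ
  have hι : #ι ≤ ℵ₀ := by
    have hinj : Function.Injective x := hx.1.injective
    have : Countable ι := hinj.countable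
    exact Cardinal.mk_le_aleph0
  have hκ : ℵ₀ < #κ := by
    have h1 : #ℂ = #κ := by
      have := IsAlgClosed.cardinal_eq_cardinal_transcendence_basis_of_aleph0_lt' (R := K) y hy
        Cardinal.mk_le_aleph0 (by rw [Cardinal.mk_complex]; exact Cardinal.aleph0_lt_continuum)
      exact this
    rw [← h1, Cardinal.mk_complex]
    exact Cardinal.aleph0_lt_continuum
  obtain ⟨j⟩ : Nonempty (ι ↪ κ) := Cardinal.le_def _ _ |>.1 (hι.trans hκ.le)
  have hyj : AlgebraicIndependent K (y ∘ j) := hy.1.comp j j.injective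
  let E := IntermediateField.adjoin K (Set.range x)
  let φ : E →ₐ[K] ℂ := (IntermediateField.val _).comp
    ((hyj.aevalEquivField.toAlgHom).comp (hx.1.aevalEquivField.symm.toAlgHom))
  have halg : Algebra.IsAlgebraic E F := hx.isAlgebraic_field
  letI : Algebra E ℂ := φ.toRingHom.toAlgebra
  haveI : IsScalarTower K E ℂ := IsScalarTower.of_algebraMap_eq (fun r => (φ.commutes r).symm)
  let ψ : F →ₐ[E] ℂ := IsAlgClosed.lift
  exact ⟨ψ.restrictScalars K⟩

end Pool.Agent.W92
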