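import Pool.Agent.W92.Step

set_option autoImplicit false

/-! # A subfield of `ℂ` with points on all absolutely irreducible varieties and no new squares -/

namespace Pool.Agent.W92

open MvPolynomial

theorem step' (K L : Subfield ℂ) (h : K ≤ L) [Countable L] (hL : NoNewSquares L) (n : ℕ)
    (T : Set (MvPolynomial (Fin n) K))
    (hT : (Ideal.map (MvPolynomial.map (algebraMap K ℂ)) (Ideal.span T)).IsPrime) :
    ∃ L' : Subfield ℂ, L ≤ L' ∧ Countable L' ∧ NoNewSquares L' ∧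
      ∃ x : Fin n → ℂ, (∀ i, x i ∈ L') ∧ ∀ p ∈ T, MvPolynomial.aeval x p = 0 := by
  obtain ⟨ι, hι⟩ : ∃ ι : K →+* L, ι = Subfield.inclusion h := ⟨_, rfl⟩
  have hcomp : (algebraMap L ℂ).comp ι = algebraMap K ℂ := by
    rw [hι]; rfl
  have h1 : Ideal.map (MvPolynomial.map (algebraMap L ℂ))
      (Ideal.span (MvPolynomial.map ι '' T)) =
      Ideal.map (MvPolynomial.map (algebraMap K ℂ)) (Ideal.span T) := by
    rw [← Ideal.map_span, Ideal.map_map]
    congr 1
    ext p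
    · simp [← hcomp]
    · simp
  obtain ⟨L', h2, h3, h4, x, hx, hx'⟩ := step L hL n (MvPolynomial.map ι '' T) (by rw [h1]; exact hT)
  refine ⟨L', h2, h3, h4, x, hx, fun p hp => ?_⟩
  have := hx' _ (Set.mem_image_of_mem _ hp)
  rw [MvPolynomial.aeval_def, MvPolynomial.eval₂_map, hcomp] at this
  exact this

theorem mem_iSup {L : ℕ → Subfield ℂ} (hL : Monotone L) (z : ℂ) :
    z ∈ (⨆ i, L i) ↔ ∃ i, z ∈ L i :=
  Subfield.mem_iSup_of_directed hL.directed_le

theorem countable_iSup {L : ℕ → Subfield ℂ} (hL : Monotone L) (hc : ∀ i, Countable (L i)) :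
    Countable (⨆ i, L i : Subfield ℂ) := by
  have h1 : ((⨆ i, L i : Subfield ℂ) : Set ℂ) = ⋃ i, (L i : Set ℂ) := by
    ext z
    rw [Set.mem_iUnion]
    exact mem_iSup hL z
  have h2 : ((⨆ i, L i : Subfield ℂ) : Set ℂ).Countable := by
    rw [h1]
    exact Set.countable_iUnion fun i => Set.to_countable _
  exact h2.to_subtype

theorem noNewSquares_iSup {L : ℕ → Subfield ℂ} (hL : Monotone L) (hc : ∀ i, NoNewSquares (L i)) :
    NoNewSquares (⨆ i, L i) := by
  rintro a ⟨z, hz, hza⟩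
  obtain ⟨i, hi⟩ := (mem_iSup hL z).1 hz
  exact hc i a ⟨z, hi, hza⟩

theorem bigstep (K : Subfield ℂ) [Countable K] (hK : NoNewSquares K) :
    ∃ K' : Subfield ℂ, K ≤ K' ∧ Countable K' ∧ NoNewSquares K' ∧
      ∀ (n : ℕ) (T : Finset (MvPolynomial (Fin n) K)),
        (Ideal.map (MvPolynomial.map (algebraMap K ℂ)) (Ideal.span (T : Set (MvPolynomial (Fin n) K)))).IsPrime →
        ∃ x : Fin n → ℂ, (∀ i, x i ∈ K') ∧ ∀ p ∈ T, MvPolynomial.aeval x p = 0 := by
  have hcp : ∀ n, Countable (MvPolynomial (Fin n) K) := by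
    intro n
    have := MvPolynomial.cardinalMk_le_max (σ := Fin n) (R := K)
    rw [← Cardinal.mk_le_aleph0_iff]
    refine this.trans ?_
    simp
  have hct : Countable (Σ n, Finset (MvPolynomial (Fin n) K)) := by
    classical
    infer_instance
  have : Nonempty (Σ n, Finset (MvPolynomial (Fin n) K)) := ⟨⟨0, ∅⟩⟩
  obtain ⟨task, htask⟩ := exists_surjective_nat (Σ n, Finset (MvPolynomial (Fin n) K))
  let C := {L : Subfield ℂ // K ≤ L ∧ Countable L ∧ NoNewSquares L}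
  have hnext : ∀ (i : ℕ) (L : C), ∃ L' : C, L.1 ≤ L'.1 ∧
      ((Ideal.map (MvPolynomial.map (algebraMap K ℂ))
        (Ideal.span ((task i).2 : Set (MvPolynomial (Fin (task i).1) K)))).IsPrime →
        ∃ x : Fin (task i).1 → ℂ, (∀ j, x j ∈ L'.1) ∧
          ∀ p ∈ (task i).2, MvPolynomial.aeval x p = 0) := by
    rintro i ⟨L, h1, h2, h3⟩
    by_cases h : (Ideal.map (MvPolynomial.map (algebraMap K ℂ))
        (Ideal.span ((task i).2 : Set (MvPolynomial (Fin (task i).1) K)))).IsPrime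
    · obtain ⟨L', h4, h5, h6, x, hx, hx'⟩ := step' K L h1 h3 _ _ h
      exact ⟨⟨L', h1.trans h4, h5, h6⟩, h4, fun _ => ⟨x, hx, hx'⟩⟩
    · exact ⟨⟨L, h1, h2, h3⟩, le_rfl, fun h' => absurd h' h⟩
  choose nx hnx1 hnx2 using hnext
  let seq : ℕ → C := fun i => Nat.rec ⟨K, le_rfl, inferInstance, hK⟩ (fun i L => nx i L) i
  have hseq : ∀ i, seq (i + 1) = nx i (seq i) := fun i => rfl
  have hmono : Monotone (fun i => (seq i).1) := by
    apply monotone_nat_of_le_succ
    intro i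
    rw [hseq]
    exact hnx1 i (seq i)
  refine ⟨⨆ i, (seq i).1, ?_, countable_iSup hmono fun i => (seq i).2.2.1,
    noNewSquares_iSup hmono fun i => (seq i).2.2.2, ?_⟩
  · intro z hz
    exact (mem_iSup hmono z).2 ⟨0, hz⟩
  · intro n T hT
    obtain ⟨i, hi⟩ := htask ⟨n, T⟩
    have := hnx2 i (seq i)
    rw [← hseq, hi] at this
    obtain ⟨x, hx, hx'⟩ := this hT
    exact ⟨x, fun j => (mem_iSup hmono _).2 ⟨i + 1, hx j⟩, hx'⟩

theorem exists_pac : ∃ K : Subfield ℂ, NoNewSquares K ∧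
      ∀ (n : ℕ) (T : Finset (MvPolynomial (Fin n) K)),
        (Ideal.map (MvPolynomial.map (algebraMap K ℂ)) (Ideal.span (T : Set (MvPolynomial (Fin n) K)))).IsPrime →
        ∃ x : Fin n → K, ∀ p ∈ T, MvPolynomial.aeval x p = 0 := by
  classical
  let C := {L : Subfield ℂ // Countable L ∧ NoNewSquares L}
  have hnext : ∀ (L : C), ∃ L' : C, L.1 ≤ L'.1 ∧
      ∀ (n : ℕ) (T : Finset (MvPolynomial (Fin n) L.1)),
        (Ideal.map (MvPolynomial.map (algebraMap L.1 ℂ))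
          (Ideal.span (T : Set (MvPolynomial (Fin n) L.1)))).IsPrime →
        ∃ x : Fin n → ℂ, (∀ i, x i ∈ L'.1) ∧ ∀ p ∈ T, MvPolynomial.aeval x p = 0 := by
    rintro ⟨L, h1, h2⟩
    obtain ⟨L', h3, h4, h5, h6⟩ := bigstep L h2
    exact ⟨⟨L', h4, h5⟩, h3, h6⟩
  choose nx hnx1 hnx2 using hnext
  have hbase : ∃ L : Subfield ℂ, Countable L ∧ NoNewSquares L := by
    refine ⟨(algebraMap ℚ ℂ).fieldRange, (Set.countable_range _).to_subtype, ?_⟩
    rintro a ⟨z, ⟨b, rfl⟩, hz⟩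
    refine ⟨b, ?_⟩
    have : ((b ^ 2 : ℚ) : ℂ) = (a : ℂ) := by
      rw [← hz]; simp
    have := Rat.cast_injective this
    rw [← this, sq]
  obtain ⟨L0, hL0⟩ := hbase
  let seq : ℕ → C := fun i => Nat.rec ⟨L0, hL0⟩ (fun _ L => nx L) i
  have hseq : ∀ i, seq (i + 1) = nx (seq i) := fun i => rfl
  have hmono : Monotone (fun i => (seq i).1) := by
    apply monotone_nat_of_le_succ
    intro i
    rw [hseq]
    exact hnx1 (seq i)
  refine ⟨⨆ i, (seq i).1, noNewSquares_iSup hmono fun i => (seq i).2.2, ?_⟩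
  intro n T hT
  -- all coefficients of the polynomials of `T` lie in one member of the sequence
  obtain ⟨K, hK⟩ : ∃ K : Subfield ℂ, K = ⨆ i, (seq i).1 := ⟨_, rfl⟩
  have hle : ∀ i, (seq i).1 ≤ ⨆ i, (seq i).1 := fun i z hz => (mem_iSup hmono z).2 ⟨i, hz⟩
  have h1 : ∀ z : (⨆ i, (seq i).1 : Subfield ℂ), ∃ i, (z : ℂ) ∈ (seq i).1 :=
    fun z => (mem_iSup hmono _).1 z.2
  choose lev hlev using h1
  obtain ⟨N, hN⟩ : ∃ N : ℕ, ∀ p ∈ T, ∀ m ∈ p.support, lev (p.coeff m) ≤ N := by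
    refine ⟨T.sup fun p => p.support.sup fun m => lev (p.coeff m), fun p hp m hm => ?_⟩
    exact (Finset.le_sup (f := fun m => lev (p.coeff m)) hm).trans
      (Finset.le_sup (f := fun p => p.support.sup fun m => lev (p.coeff m)) hp)
  have hmem : ∀ p ∈ T, ∀ m, ((p.coeff m : (⨆ i, (seq i).1 : Subfield ℂ)) : ℂ) ∈ (seq N).1 := by
    intro p hp m
    by_cases hm : m ∈ p.support
    · exact hmono (hN p hp m hm) (hlev _)
    · rw [MvPolynomial.notMem_support_iff.1 hm]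
      exact zero_mem _
  obtain ⟨ι, hι⟩ : ∃ ι : (seq N).1 →+* (⨆ i, (seq i).1 : Subfield ℂ),
    ι = Subfield.inclusion (hle N) := ⟨_, rfl⟩
  have hcomp : (algebraMap (⨆ i, (seq i).1 : Subfield ℂ) ℂ).comp ι = algebraMap (seq N).1 ℂ := by
    rw [hι]; rfl
  have hlift : ∀ p ∈ T, ∃ q : MvPolynomial (Fin n) (seq N).1, MvPolynomial.map ι q = p := by
    intro p hp
    refine ⟨∑ m ∈ p.support, MvPolynomial.monomial m
      (⟨((p.coeff m : (⨆ i, (seq i).1 : Subfield ℂ)) : ℂ), hmem p hp m⟩ : (seq N).1), ?_⟩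
    rw [map_sum]
    conv_rhs => rw [MvPolynomial.as_sum p]
    refine Finset.sum_congr rfl fun m _ => ?_
    rw [MvPolynomial.map_monomial, hι]
    rfl
  choose! g hg using hlift
  have hTg : MvPolynomial.map ι '' ((T.image g : Finset (MvPolynomial (Fin n) (seq N).1)) :
      Set (MvPolynomial (Fin n) (seq N).1)) =
      (T : Set (MvPolynomial (Fin n) (⨆ i, (seq i).1 : Subfield ℂ))) := by
    apply Set.ext
    intro p
    constructor
    · rintro ⟨q, hq, rfl⟩
      rw [Finset.coe_image] at hq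
      obtain ⟨p', hp', rfl⟩ := hq
      rw [hg p' hp']
      exact hp'
    · intro hp
      exact ⟨g p, by rw [Finset.coe_image]; exact Set.mem_image_of_mem _ hp, hg p hp⟩
  have h2 := hnx2 (seq N) n (T.image g) (by
    have h3 : Ideal.map (MvPolynomial.map (algebraMap (seq N).1 ℂ))
        (Ideal.span ((T.image g : Finset _) : Set (MvPolynomial (Fin n) (seq N).1))) =
        Ideal.map (MvPolynomial.map (algebraMap (⨆ i, (seq i).1 : Subfield ℂ) ℂ))
          (Ideal.span (T : Set (MvPolynomial (Fin n) (⨆ i, (seq i).1 : Subfield ℂ)))) := by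
      rw [← hTg, ← Ideal.map_span, Ideal.map_map]
      congr 1
      ext p
      · simp [← hcomp]
      · simp
    rw [h3]
    exact hT)
  rw [← hseq] at h2
  obtain ⟨x, hx, hx'⟩ := h2
  refine ⟨fun i => ⟨x i, hle (N + 1) (hx i)⟩, fun p hp => ?_⟩
  have h4 := hx' (g p) (Finset.mem_image_of_mem g hp)
  apply Subtype.ext
  have h5 : ((MvPolynomial.aeval (fun i => (⟨x i, hle (N + 1) (hx i)⟩ :
      (⨆ i, (seq i).1 : Subfield ℂ))) p : (⨆ i, (seq i).1 : Subfield ℂ)) : ℂ) =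
      MvPolynomial.aeval x p := by
    rw [MvPolynomial.aeval_def, MvPolynomial.aeval_def]
    change (algebraMap (⨆ i, (seq i).1 : Subfield ℂ) ℂ) _ = _
    rw [MvPolynomial.hom_eval₂]
    rfl
  rw [h5, ← hg p hp, MvPolynomial.aeval_def, MvPolynomial.eval₂_map, hcomp]
  exact h4

end Pool.Agent.W92
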