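import Pool.Agent.W92.Emb

set_option autoImplicit false

/-! # Adjoining a generic point of an absolutely prime ideal -/

namespace Pool.Agent.W92

open MvPolynomial TensorProduct

/-- Coefficientwise application of a linear form. -/
theorem exists_coeffwise {K Ω : Type} [Field K] [Field Ω] [Algebra K Ω] (n : ℕ) (l : Ω →ₗ[K] K) :
    ∃ L : MvPolynomial (Fin n) Ω →+ MvPolynomial (Fin n) K,
      ∀ (q : MvPolynomial (Fin n) Ω) (t : MvPolynomial (Fin n) K),
        L (q * MvPolynomial.map (algebraMap K Ω) t) = L q * t ∧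
        ∀ z : Ω, L (MvPolynomial.C z * MvPolynomial.map (algebraMap K Ω) t) = l z • t := by
  obtain ⟨e, he⟩ : ∃ e : Ω ⊗[K] MvPolynomial (Fin n) K ≃ₐ[Ω] MvPolynomial (Fin n) Ω,
    e = MvPolynomial.algebraTensorAlgEquiv (σ := Fin n) K Ω := ⟨_, rfl⟩
  obtain ⟨M, hM⟩ : ∃ M : Ω ⊗[K] MvPolynomial (Fin n) K →+ MvPolynomial (Fin n) K,
      ∀ z t, M (z ⊗ₜ t) = l z • t := by
    refine ⟨((TensorProduct.lid K (MvPolynomial (Fin n) K)).toLinearMap ∘ₗ
      (l.rTensor (MvPolynomial (Fin n) K))).toAddMonoidHom, fun z t => ?_⟩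
    change (TensorProduct.lid K (MvPolynomial (Fin n) K))
      ((l.rTensor (MvPolynomial (Fin n) K)) (z ⊗ₜ t)) = _
    rw [LinearMap.rTensor_tmul, TensorProduct.lid_tmul]
  have hmap : ∀ t : MvPolynomial (Fin n) K, e (1 ⊗ₜ t) = MvPolynomial.map (algebraMap K Ω) t := by
    intro t
    rw [he, MvPolynomial.algebraTensorAlgEquiv_tmul, one_smul]
  have hC : ∀ z : Ω, e (z ⊗ₜ 1) = MvPolynomial.C z := by
    intro z
    rw [he, MvPolynomial.algebraTensorAlgEquiv_tmul, map_one, MvPolynomial.smul_eq_C_mul, mul_one]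
  have h1 : ∀ v, (M.comp (e.symm : MvPolynomial (Fin n) Ω →+ Ω ⊗[K] MvPolynomial (Fin n) K))
      (e v) = M v := by
    intro v
    change M (e.symm (e v)) = _
    rw [e.symm_apply_apply]
  refine ⟨M.comp (e.symm : MvPolynomial (Fin n) Ω →+ Ω ⊗[K] MvPolynomial (Fin n) K),
    fun q t => ⟨?_, fun z => ?_⟩⟩
  · obtain ⟨u, rfl⟩ := e.surjective q
    rw [← hmap t, ← map_mul, h1, h1]
    induction u using TensorProduct.induction_on with
    | zero => simp
    | tmul z w =>
      rw [Algebra.TensorProduct.tmul_mul_tmul, mul_one, hM, hM, smul_mul_assoc]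
    | add a b ha hb => rw [add_mul, map_add, ha, hb, map_add, add_mul]
  · rw [← hmap t, ← hC z, ← map_mul, h1, Algebra.TensorProduct.tmul_mul_tmul, mul_one, one_mul, hM]

theorem mem_of_conj {K Ω : Type} [Field K] [Field Ω] [Algebra K Ω] (n : ℕ)
    (T : Set (MvPolynomial (Fin n) K)) (s : Ω)
    (hs : s ∉ (algebraMap K Ω).range) (f g : MvPolynomial (Fin n) K)
    (h : MvPolynomial.map (algebraMap K Ω) f - MvPolynomial.C s *
      MvPolynomial.map (algebraMap K Ω) g ∈
      Ideal.map (MvPolynomial.map (algebraMap K Ω)) (Ideal.span T)) :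
    g ∈ Ideal.span T := by
  have h1 : s ∉ Submodule.span K {(1 : Ω)} := by
    rw [Submodule.mem_span_singleton]
    rintro ⟨a, rfl⟩
    apply hs
    exact ⟨a, by rw [Algebra.smul_def, mul_one]⟩
  obtain ⟨l, hl1, hl2⟩ := Submodule.exists_le_ker_of_notMem h1
  have hl3 : l 1 = 0 := hl2 (Submodule.mem_span_singleton_self _)
  obtain ⟨L, hL⟩ := exists_coeffwise n l
  have hJ' : ∀ p ∈ Ideal.map (MvPolynomial.map (algebraMap K Ω)) (Ideal.span T), ∀ q,
      L (q * p) ∈ Ideal.span T := by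
    intro p hp
    refine Submodule.span_induction (p := fun p _ => ∀ q, L (q * p) ∈ Ideal.span T)
      ?_ ?_ ?_ ?_ hp
    · rintro _ ⟨t, ht, rfl⟩ q
      rw [(hL q t).1]
      exact Ideal.mul_mem_left _ _ ht
    · intro q
      rw [mul_zero, map_zero]; exact zero_mem _
    · intro a b _ _ ha hb q
      rw [mul_add, map_add]; exact add_mem (ha q) (hb q)
    · intro a x _ hx q
      rw [smul_eq_mul, ← mul_assoc]
      exact hx _
  have hJ : ∀ p ∈ Ideal.map (MvPolynomial.map (algebraMap K Ω)) (Ideal.span T),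
      L p ∈ Ideal.span T := by
    intro p hp
    have := hJ' p hp 1
    rwa [one_mul] at this
  have h2 := hJ _ h
  rw [map_sub, (hL 1 g).2 s] at h2
  have h3 := (hL 1 f).2 1
  rw [MvPolynomial.C_1, one_mul, hl3, zero_smul] at h3
  rw [h3, zero_sub, neg_mem_iff] at h2
  have h4 : g = (l s)⁻¹ • (l s • g) := by
    rw [smul_smul, inv_mul_cancel₀ hl1, one_smul]
  rw [h4, MvPolynomial.smul_eq_C_mul]
  exact Ideal.mul_mem_left _ _ h2

/-- the rational numbers that are squares in `K` are squares of rational numbers -/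
def NoNewSquares (K : Subfield ℂ) : Prop :=
  ∀ a : ℚ, (∃ z : ℂ, z ∈ K ∧ z ^ 2 = (a : ℂ)) → IsSquare a

theorem countable_fractionRing (D : Type) [CommRing D] [Countable D] :
    Countable (FractionRing D) := by
  rw [← Cardinal.mk_le_aleph0_iff]
  exact (Localization.cardinalMk_le (nonZeroDivisors D)).trans Cardinal.mk_le_aleph0

theorem exists_generic (K : Type) [Field K] [Countable K] (n : ℕ)
    (I : Ideal (MvPolynomial (Fin n) K)) (hI : I.IsPrime) :
    ∃ (F : Type) (_ : Field F) (_ : Algebra K F) (_ : Countable F)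
      (mk : MvPolynomial (Fin n) K →ₐ[K] F), (∀ p, mk p = 0 ↔ p ∈ I) ∧
      ∀ w : F, ∃ f g, mk g ≠ 0 ∧ mk f / mk g = w := by
  have : IsDomain (MvPolynomial (Fin n) K ⧸ I) := Ideal.Quotient.isDomain I
  have hc1 : Countable (MvPolynomial (Fin n) K) := by
    have := MvPolynomial.cardinalMk_le_max (σ := Fin n) (R := K)
    rw [← Cardinal.mk_le_aleph0_iff]
    refine this.trans ?_
    simp
  have hc2 : Countable (MvPolynomial (Fin n) K ⧸ I) :=
    Function.Surjective.countable Ideal.Quotient.mk_surjective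
  have hc3 := countable_fractionRing (MvPolynomial (Fin n) K ⧸ I)
  have hm : ∀ p, algebraMap (MvPolynomial (Fin n) K ⧸ I)
      (FractionRing (MvPolynomial (Fin n) K ⧸ I)) (Ideal.Quotient.mk I p) = 0 ↔ p ∈ I := by
    intro p
    rw [← Ideal.Quotient.eq_zero_iff_mem]
    exact ⟨fun h => IsFractionRing.injective _ _ (h.trans (map_zero _).symm),
      fun h => by rw [h, map_zero]⟩
  refine ⟨FractionRing (MvPolynomial (Fin n) K ⧸ I), inferInstance, inferInstance, hc3,
    (Algebra.algHom K (MvPolynomial (Fin n) K ⧸ I)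
      (FractionRing (MvPolynomial (Fin n) K ⧸ I))).comp (Ideal.Quotient.mkₐ K I), hm, ?_⟩
  intro w
  obtain ⟨u, v, hv, huv⟩ := IsFractionRing.div_surjective (A := MvPolynomial (Fin n) K ⧸ I) w
  obtain ⟨f, rfl⟩ := Ideal.Quotient.mk_surjective u
  obtain ⟨g, rfl⟩ := Ideal.Quotient.mk_surjective v
  refine ⟨f, g, ?_, huv⟩
  intro h
  have := (hm g).1 h
  rw [Ideal.Quotient.eq_zero_iff_mem.2 this] at hv
  exact nonZeroDivisors.ne_zero hv rfl

theorem step (K : Subfield ℂ) [Countable K] (hK : NoNewSquares K) (n : ℕ)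
    (T : Set (MvPolynomial (Fin n) K))
    (hT : (Ideal.map (MvPolynomial.map (algebraMap K ℂ)) (Ideal.span T)).IsPrime) :
    ∃ K' : Subfield ℂ, K ≤ K' ∧ Countable K' ∧ NoNewSquares K' ∧
      ∃ x : Fin n → ℂ, (∀ i, x i ∈ K') ∧ ∀ p ∈ T, MvPolynomial.aeval x p = 0 := by
  obtain ⟨I, hI⟩ : ∃ I, I = (Ideal.map (MvPolynomial.map (algebraMap K ℂ)) (Ideal.span T)).comap
    (MvPolynomial.map (algebraMap K ℂ)) := ⟨_, rfl⟩
  have hIp : I.IsPrime := by rw [hI]; exact Ideal.IsPrime.comap _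
  obtain ⟨F, _, _, _, mk, hmk0, hmk1⟩ := exists_generic K n I hIp
  obtain ⟨φ⟩ := exists_emb K F
  have hTI : ∀ p ∈ T, p ∈ I := by
    intro p hp
    rw [hI]
    exact Ideal.mem_map_of_mem _ (Ideal.subset_span hp)
  refine ⟨φ.toRingHom.fieldRange, ?_, ?_, ?_, fun i => φ (mk (X i)), fun i => ⟨_, rfl⟩, ?_⟩
  · intro z hz
    exact ⟨algebraMap K _ ⟨z, hz⟩, φ.commutes ⟨z, hz⟩⟩
  · exact (Set.countable_range φ).to_subtype
  · rintro a ⟨z, ⟨w, hw⟩, hz⟩
    change φ w = z at hw
    by_cases hzK : z ∈ K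
    · exact hK a ⟨z, hzK, hz⟩
    exfalso
    obtain ⟨f, g, hg0, huv'⟩ := hmk1 w
    have hg : g ∉ I := fun h => hg0 ((hmk0 g).2 h)
    have hw2 : w ^ 2 = algebraMap K F (a : K) := by
      apply φ.injective
      change φ (w ^ 2) = φ (algebraMap K F (a : K))
      rw [map_pow, hw, hz, φ.commutes]
      simp
    have h1 : mk (f ^ 2 - MvPolynomial.C (a : K) * g ^ 2) = 0 := by
      have h2 : mk (MvPolynomial.C (a : K)) = w ^ 2 := by
        rw [hw2]
        exact mk.commutes _
      rw [map_sub, map_pow, map_mul, map_pow, h2, ← huv']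
      field_simp
      ring
    rw [hmk0, hI, Ideal.mem_comap] at h1
    have h2 : (MvPolynomial.map (algebraMap K ℂ) f - MvPolynomial.C z *
        MvPolynomial.map (algebraMap K ℂ) g) * (MvPolynomial.map (algebraMap K ℂ) f -
        MvPolynomial.C (-z) * MvPolynomial.map (algebraMap K ℂ) g) ∈
        Ideal.map (MvPolynomial.map (algebraMap K ℂ)) (Ideal.span T) := by
      convert h1 using 1
      rw [map_sub, map_pow, map_mul, map_pow, MvPolynomial.map_C]
      have : (algebraMap K ℂ (a : K)) = z ^ 2 := by rw [hz]; simp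
      rw [this, map_neg, map_pow]
      ring
    have hz' : z ∉ (algebraMap K ℂ).range := by
      rintro ⟨k, rfl⟩
      exact hzK k.2
    have hz'' : -z ∉ (algebraMap K ℂ).range := by
      rintro ⟨k, hk⟩
      apply hzK
      have : z = -(algebraMap K ℂ k) := by rw [hk]; ring
      rw [this]
      exact neg_mem k.2
    have hgI : g ∈ Ideal.span T := by
      rcases hT.mem_or_mem h2 with h3 | h3
      · exact mem_of_conj n T z hz' f g h3
      · exact mem_of_conj n T (-z) hz'' f g h3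
    apply hg
    rw [hI]
    exact Ideal.mem_map_of_mem _ hgI
  · intro p hp
    have : (MvPolynomial.aeval fun i => φ (mk (X i))) = φ.comp mk := by
      apply MvPolynomial.algHom_ext
      intro i
      simp
    rw [this]
    change φ (mk p) = 0
    rw [(hmk0 p).2 (hTI p hp), map_zero]

end Pool.Agent.W92
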